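import Pool.Agent.Lib.MP_e6fef2_lc.V.H25.Pos

/-!
# Module V_NFA
-/

universe u

open Cardinal

open scoped symmDiff

namespace Pool.Agent.Lib.MP_e6fef2_lc.H25

open Pool.Agent.Lib.MP_100a6c_lc
open Pool.Agent.Lib.MP_c5d73d_lc.F (isOm isPow isPreo comp isDense isFilt ZFC)
open BName
open H36 (om)

variable {B : Type u} [CompleteBooleanAlgebra B] {X : Type u} [PartialOrder X]

/-- the name of the dense set `{x : v x ⊓ D x}` -/
noncomputable def dn (v D : X → B) : BName B := mk X (fun x => check (code x)) fun x => v x ⊓ D x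

theorem dense_dn (v D : X → B) (hD : ∀ p, v p ≤ ⨆ q, ⨆ _ : q ≤ p, v q ⊓ D q) :
    isDense (VB B) (Pn v) (rn B X) (dn v D) = ⊤ := by
  refine top_le_iff.1 (le_inf ?_ ?_)
  · rw [le_sub_iff]
    intro x
    have h : ∀ x : X, ⊤ ⊓ (v x ⊓ D x) ≤ bmem (check (code x)) (Pn v) := by
      intro x
      rw [mem_Pn_code, top_inf_eq]
      exact inf_le_left
    exact h x
  · have hE : Ext (fun p : BName B => ⨆ q, bmem q (dn v D) ⊓ (VB B).rel (rn B X) q p) :=
      Ext.iSup fun q => (Ext.const _).inf (ext_rel_trd (rn B X) q)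
    refine (le_iInf_mem (x := Pn v) (Γ := ⊤) hE).2 ?_
    intro (x : X)
    change ⊤ ⊓ v x ≤ ⨆ q, bmem q (dn v D) ⊓ (VB B).rel (rn B X) q (check (code x))
    rw [top_inf_eq]
    refine (hD x).trans (iSup_le fun q => iSup_le fun hq => ?_)
    refine le_iSup_of_le (check (code q)) (le_inf ?_ ?_)
    · refine le_iSup_of_le q ?_
      change v q ⊓ D q ≤ (v q ⊓ D q) ⊓ beq (check (code q)) (check (code q))
      rw [beq_refl, inf_top_eq]
    · rw [rel_code, iSup_pos hq]
      exact le_top

/-- V_NFA. -/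
theorem v_nfa : VNfaStatement.{u} := by
  intro B _ X _ v hv
  obtain ⟨D, hD1, hD2⟩ := hv
  let DD : BName B := mk W.{u} (fun ξ => dn v (D ξ)) fun _ => ⊤
  have h1 : (⨅ d, (VB B).mem d DD ⇨ isDense (VB B) (Pn v) (rn B X) d) = ⊤ := by
    have hE : Ext (fun d : BName B => isDense (VB B) (Pn v) (rn B X) d) :=
      (ext_sub_left (Pn v)).inf (Ext.iInf fun p =>
        (Ext.const _).himp (Ext.iSup fun q => (ext_mem_right q).inf (Ext.const _)))
    refine top_le_iff.1 ((le_iInf_mem (x := DD) (Γ := ⊤) hE).2 ?_)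
    intro (ξ : W.{u})
    exact le_top.trans (dense_dn v (D ξ) (hD1 ξ)).ge
  have h2 : (VB B).leCard DD (check om1) = ⊤ := by
    refine top_le_iff.1 (le_leCard_of_enum (Y := W.{u}) (t := fun ξ => dn v (D ξ))
      (Cardinal.aleph 1) (mk_ord_toType _).le ?_)
    intro z
    rw [top_inf_eq]
    change (⨆ ξ : W.{u}, ⊤ ⊓ beq z (dn v (D ξ))) ≤ _
    exact iSup_mono fun ξ => inf_le_right
  have h3 : (⨆ G, isFilt (VB B) (Pn v) (rn B X) G ⊓
      ⨅ d, (VB B).mem d DD ⇨ ⨆ p, (VB B).mem p G ⊓ (VB B).mem p d) = ⊥ := by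
    refine le_bot_iff.1 (iSup_le fun G => ?_)
    set Γ : B := isFilt (VB B) (Pn v) (rn B X) G ⊓
      ⨅ d, (VB B).mem d DD ⇨ ⨆ p, (VB B).mem p G ⊓ (VB B).mem p d with hΓ
    have hf : Γ ≤ isFilt (VB B) (Pn v) (rn B X) G := inf_le_left
    have hsub : Γ ≤ (VB B).sub G (Pn v) := hf.trans (inf_le_left.trans (inf_le_left.trans
      inf_le_left))
    have hup : ∀ p q, Γ ⊓ (bmem p G ⊓ bmem q (Pn v) ⊓ (VB B).rel (rn B X) p q) ≤ bmem q G := by
      intro p q
      have h : Γ ≤ bmem p G ⊓ bmem q (Pn v) ⊓ (VB B).rel (rn B X) p q ⇨ bmem q G :=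
        (hf.trans (inf_le_left.trans inf_le_right)).trans (iInf_le_of_le p (iInf_le _ q))
      rwa [le_himp_iff] at h
    have hdir : ∀ p q, Γ ⊓ (bmem p G ⊓ bmem q G) ≤
        ⨆ s, bmem s G ⊓ (VB B).rel (rn B X) s p ⊓ (VB B).rel (rn B X) s q := by
      intro p q
      have h : Γ ≤ bmem p G ⊓ bmem q G ⇨
          ⨆ s, bmem s G ⊓ (VB B).rel (rn B X) s p ⊓ (VB B).rel (rn B X) s q :=
        (hf.trans inf_le_right).trans (iInf_le_of_le p (iInf_le _ q))
      rwa [le_himp_iff] at h
    have hmeet : ∀ ξ, Γ ≤ ⨆ p, bmem p G ⊓ bmem p (dn v (D ξ)) := by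
      intro ξ
      refine iInf_himp_apply (Γ := Γ) (φ := fun d => bmem d DD)
        (ψ := fun d => ⨆ p, bmem p G ⊓ bmem p d) inf_le_right (dn v (D ξ)) le_rfl ?_
      change Γ ≤ ⨆ η : W.{u}, ⊤ ⊓ beq (dn v (D ξ)) (dn v (D η))
      refine le_iSup_of_le ξ ?_
      rw [beq_refl, inf_top_eq]
      exact le_top
    clear_value Γ
    have hbot := hD2 (fun x => Γ ⊓ bmem (check (code x)) G) ?_ ?_ ?_
    · rw [← hbot]
      refine le_iInf fun ξ => ?_
      refine (le_inf le_rfl (hmeet ξ)).trans ?_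
      rw [inf_iSup_eq]
      refine iSup_le fun p => ?_
      change Γ ⊓ (bmem p G ⊓ ⨆ x, (v x ⊓ D ξ x) ⊓ beq p (check (code x))) ≤ _
      rw [inf_iSup_eq, inf_iSup_eq]
      refine iSup_mono fun x => le_inf (le_inf inf_le_left ?_) ?_
      · exact (ext_mem_left G).of_le (x := p)
          (inf_le_right.trans (inf_le_right.trans inf_le_right)) (inf_le_right.trans inf_le_left)
      · exact inf_le_right.trans (inf_le_right.trans (inf_le_left.trans inf_le_right))
    · intro x
      refine le_trans ?_ (mem_Pn_code v x).le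
      exact sub_apply hsub _ inf_le_left inf_le_right
    · intro x y hxy
      refine le_inf (inf_le_left.trans inf_le_left) ?_
      refine le_trans (le_inf (inf_le_left.trans inf_le_left) (le_inf (le_inf ?_ ?_) ?_))
        (hup (check (code x)) (check (code y)))
      · exact inf_le_left.trans inf_le_right
      · rw [mem_Pn_code]; exact inf_le_right
      · rw [rel_code, iSup_pos hxy]; exact le_top
    · intro x y
      have h4 := (le_inf (inf_le_left.trans inf_le_left) (le_inf
        (inf_le_left.trans inf_le_right) (inf_le_right.trans inf_le_right)) :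
        (Γ ⊓ bmem (check (code x)) G) ⊓ (Γ ⊓ bmem (check (code y)) G) ≤ _).trans
        (hdir (check (code x)) (check (code y)))
      refine (le_inf (inf_le_left.trans inf_le_left) h4).trans ?_
      rw [inf_iSup_eq]
      refine iSup_le fun s => ?_
      rw [rel_rn, rel_rn, inf_assoc (bmem s G), iSup_inf_iSup, inf_iSup_eq, inf_iSup_eq]
      refine iSup_le fun ij => ?_
      obtain ⟨i, j⟩ := ij
      change Γ ⊓ (bmem s G ⊓ ((beq s (check (code i.1.1)) ⊓ beq (check (code x)) (check (code i.1.2)))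
        ⊓ (beq s (check (code j.1.1)) ⊓ beq (check (code y)) (check (code j.1.2))))) ≤ _
      by_cases hx : x = i.1.2
      swap
      · rw [beq_code x i.1.2]
        simp [hx]
      by_cases hy : y = j.1.2
      swap
      · rw [beq_code y j.1.2]
        simp [hy]
      rcases code_eq_or (p := s) (x := i.1.1) (y := j.1.1)
        (Γ := Γ ⊓ (bmem s G ⊓ ((beq s (check (code i.1.1)) ⊓
          beq (check (code x)) (check (code i.1.2)))
        ⊓ (beq s (check (code j.1.1)) ⊓ beq (check (code y)) (check (code j.1.2))))))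
        (inf_le_right.trans (inf_le_right.trans (inf_le_left.trans inf_le_left)))
        (inf_le_right.trans (inf_le_right.trans (inf_le_right.trans inf_le_left))) with h | h
      · rw [h]; exact bot_le
      · refine le_iSup_of_le i.1.1 (le_iSup_of_le ⟨by rw [hx]; exact i.2, by
          rw [hy, h]; exact j.2⟩ (le_inf inf_le_left ?_))
        exact (ext_mem_left G).of_le (x := s)
          (inf_le_right.trans (inf_le_right.trans (inf_le_left.trans inf_le_left)))
          (inf_le_right.trans inf_le_left)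
  refine le_bot_iff.1 ((iInf_le _ DD).trans ?_)
  rw [h1, h2, h3, top_inf_eq, top_himp]

end Pool.Agent.Lib.MP_e6fef2_lc.H25
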