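import Pool.Agent.Lib.MP_e6fef2_lc.V.Iface

/-!
# Modules V_POS, V_SIZE
-/

universe u

open Cardinal

open scoped symmDiff

namespace Pool.Agent.Lib.MP_e6fef2_lc.H25

open Pool.Agent.Lib.MP_100a6c_lc
open Pool.Agent.Lib.MP_c5d73d_lc.F (isOm isPow isPreo comp isDense isFilt ZFC)
open BName
open H36 (om)

variable {B : Type u} [CompleteBooleanAlgebra B] {X : Type u}

theorem code_injective : Function.Injective (code (X := X)) := by
  intro x y h
  exact Ordinal.typein_injective (WellOrderingRel (α := X)) (Ordinal.toZFSet_injective h)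

theorem beq_code (x y : X) :
    beq (check (code x) : BName B) (check (code y)) = ⨆ _ : x = y, ⊤ := by
  by_cases h : x = y
  · subst h; rw [beq_refl]; simp
  · rw [beq_check_of_ne (fun hc => h (code_injective hc))]; simp [h]

theorem mem_Pn (v : X → B) (y : BName B) :
    bmem y (Pn v) = ⨆ x, v x ⊓ beq y (check (code x)) := rfl

theorem mem_Pn_code (v : X → B) (x : X) : bmem (check (code x)) (Pn v) = v x := by
  rw [mem_Pn]
  refine le_antisymm (iSup_le fun x' => ?_) (le_iSup_of_le x ?_)
  · rw [beq_code]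
    by_cases h : x = x'
    · subst h; exact inf_le_left
    · simp [h]
  · rw [beq_refl, inf_top_eq]

variable [PartialOrder X]

theorem rel_rn (p q : BName B) : (VB B).rel (rn B X) p q =
    ⨆ i : {p : X × X // p.1 ≤ p.2}, beq p (check (code i.1.1)) ⊓ beq q (check (code i.1.2)) := by
  unfold rn
  rw [rel_relFam]
  simp only [top_inf_eq]

theorem rel_code (x y : X) :
    (VB B).rel (rn B X) (check (code x)) (check (code y)) = ⨆ _ : x ≤ y, ⊤ := by
  rw [rel_rn]
  by_cases h : x ≤ y
  · rw [iSup_pos h]
    refine top_le_iff.1 (le_iSup_of_le ⟨(x, y), h⟩ ?_)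
    rw [beq_refl, beq_refl, top_inf_eq]
  · rw [iSup_neg h]
    refine le_bot_iff.1 (iSup_le fun i => ?_)
    rw [beq_code, beq_code]
    by_cases h1 : x = i.1.1
    · by_cases h2 : y = i.1.2
      · exact absurd (by rw [h1, h2]; exact i.2) h
      · simp [h2]
    · simp [h1]

omit [PartialOrder X] in
/-- two codes for the same name are equal -/
theorem code_eq_or {p : BName B} {x y : X} {Γ : B} (h1 : Γ ≤ beq p (check (code x)))
    (h2 : Γ ≤ beq p (check (code y))) : Γ = ⊥ ∨ x = y := by
  by_cases h : x = y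
  · exact Or.inr h
  · left
    refine le_bot_iff.1 ?_
    have h3 : Γ ≤ beq (check (code x) : BName B) (check (code y)) := by
      refine le_trans (le_inf ?_ h2) (beq_trans _ p _)
      rw [beq_symm]; exact h1
    rwa [beq_check_of_ne (fun hc => h (code_injective hc))] at h3

theorem isPO_top (v : X → B) (hv : ⨆ x, v x = ⊤) : isPO (VB B) (Pn v) (rn B X) = ⊤ := by
  refine top_le_iff.1 (le_inf (le_inf (le_inf ?_ ?_) ?_) ?_)
  · rw [← hv]
    refine iSup_le fun x => le_iSup_of_le (check (code x)) ?_
    exact (mem_Pn_code v x).ge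
  · refine le_iInf fun p => ?_
    rw [le_himp_iff, top_inf_eq, rel_rn]
    change bmem p (Pn v) ≤ _
    rw [mem_Pn]
    refine iSup_le fun x => le_iSup_of_le ⟨(x, x), le_rfl⟩ (le_inf inf_le_right inf_le_right)
  · refine le_iInf fun p => le_iInf fun q => le_iInf fun s => ?_
    rw [le_himp_iff, top_inf_eq, inf_assoc]
    refine inf_le_right.trans ?_
    rw [rel_rn, rel_rn, rel_rn, iSup_inf_iSup]
    refine iSup_le fun ij => ?_
    obtain ⟨i, j⟩ := ij
    change (beq p (check (code i.1.1)) ⊓ beq q (check (code i.1.2))) ⊓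
      (beq q (check (code j.1.1)) ⊓ beq s (check (code j.1.2))) ≤ _
    rcases code_eq_or (p := q) (x := i.1.2) (y := j.1.1)
      (Γ := (beq p (check (code i.1.1)) ⊓ beq q (check (code i.1.2))) ⊓
      (beq q (check (code j.1.1)) ⊓ beq s (check (code j.1.2)))) (inf_le_left.trans inf_le_right)
      (inf_le_right.trans inf_le_left) with h | h
    · rw [h]; exact bot_le
    · refine le_iSup_of_le ⟨(i.1.1, j.1.2), i.2.trans (h ▸ j.2)⟩ ?_
      exact le_inf (inf_le_left.trans inf_le_left) (inf_le_right.trans inf_le_right)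
  · refine le_iInf fun p => le_iInf fun q => ?_
    rw [le_himp_iff, top_inf_eq, inf_assoc]
    refine inf_le_right.trans ?_
    rw [rel_rn, rel_rn, iSup_inf_iSup]
    refine iSup_le fun ij => ?_
    obtain ⟨i, j⟩ := ij
    change (beq p (check (code i.1.1)) ⊓ beq q (check (code i.1.2))) ⊓
      (beq q (check (code j.1.1)) ⊓ beq p (check (code j.1.2))) ≤ beq p q
    rcases code_eq_or (p := q) (x := i.1.2) (y := j.1.1)
      (Γ := (beq p (check (code i.1.1)) ⊓ beq q (check (code i.1.2))) ⊓
      (beq q (check (code j.1.1)) ⊓ beq p (check (code j.1.2)))) (inf_le_left.trans inf_le_right)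
      (inf_le_right.trans inf_le_left) with h | h
    · rw [h]; exact bot_le
    · rcases code_eq_or (p := p) (x := i.1.1) (y := j.1.2)
        (Γ := (beq p (check (code i.1.1)) ⊓ beq q (check (code i.1.2))) ⊓
        (beq q (check (code j.1.1)) ⊓ beq p (check (code j.1.2)))) (inf_le_left.trans inf_le_left)
        (inf_le_right.trans inf_le_right) with h' | h'
      · rw [h']; exact bot_le
      · have h3 : i.1.1 = i.1.2 := le_antisymm i.2 (by rw [h, h']; exact j.2)
        refine le_trans (le_inf (inf_le_left.trans inf_le_left) ?_)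
          (beq_trans p (check (code i.1.1)) q)
        rw [h3, beq_symm (check (code i.1.2)) q]
        exact inf_le_left.trans inf_le_right

/-- V_POS. -/
theorem v_pos : VPosStatement.{u} := by
  intro B _ X _ v
  exact ⟨beq_code, mem_Pn v, mem_Pn_code v, rel_code, isPO_top v⟩

/-- V_SIZE. -/
theorem v_size : VSizeStatement.{u} := by
  intro B _ X v hv
  obtain ⟨e, he1, he2⟩ := hv
  refine top_le_iff.1 (le_leCard (Y := W.{u}) (Γ := (⊤ : B))
    (fun y => check ((Ordinal.ToType.mk.symm y).1.toZFSet))
    (fun ξ z => ⨆ x, e ξ x ⊓ beq z (check (code x))) ?_ ?_ ?_ ?_ ?_)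
  · intro y y' hne
    refine beq_check_of_ne fun h => hne ?_
    have := Ordinal.toZFSet_injective h
    exact Ordinal.ToType.mk.symm.injective (Subtype.ext this)
  · intro y
    unfold om1
    rw [mem_check_of_mem]
    · exact le_top
    · rw [Ordinal.toZFSet_mem_toZFSet_iff]
      exact (Ordinal.ToType.mk.symm y).2
  · intro y
    exact Ext.iSup fun x => (Ext.const _).inf (ext_eq_left _)
  · intro ξ z z'
    rw [top_inf_eq, iSup_inf_iSup]
    refine iSup_le fun ij => ?_
    obtain ⟨x, y⟩ := ij
    change (e ξ x ⊓ beq z (check (code x))) ⊓ (e ξ y ⊓ beq z' (check (code y))) ≤ beq z z'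
    by_cases h : x = y
    · subst h
      refine le_trans (le_inf (inf_le_left.trans inf_le_right) ?_)
        (beq_trans z (check (code x)) z')
      rw [beq_symm (check (code x))]
      exact inf_le_right.trans inf_le_right
    · refine le_trans (le_inf (inf_le_left.trans inf_le_left) (inf_le_right.trans inf_le_left)) ?_
      rw [he1 ξ x y h]
      exact bot_le
  · intro z
    rw [top_inf_eq, mem_Pn]
    refine iSup_le fun x => ?_
    refine (inf_le_inf_right _ (he2 x)).trans ?_
    rw [iSup_inf_eq]
    exact iSup_mono fun ξ => le_iSup (fun x => e ξ x ⊓ beq z (check (code x))) x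

end Pool.Agent.Lib.MP_e6fef2_lc.H25
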